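import Pool.Agent.W841.PK.Stm2

/-! The remainders in the fluid limit lemma. -/

set_option autoImplicit false

namespace W358.PK

open Finset W841.PK
open scoped Classical symmDiff

noncomputable section

/-- second order Taylor estimate -/
theorem taylor {F F' : ℝ → ℝ} {C0 : ℝ} (hF : ∀ z, HasDerivAt F (F' z) z)
    (hL : ∀ z z', |F' z - F' z'| ≤ C0 * |z - z'|) (x δ : ℝ) :
    |F (x + δ) - F x - δ * F' x| ≤ C0 * δ ^ 2 := by
  have hC0 : 0 ≤ C0 := by
    have := hL 1 0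
    have h0 := abs_nonneg (F' 1 - F' 0)
    simp at this
    linarith
  have h1 : ∀ y ∈ segment ℝ x (x + δ), HasDerivWithinAt (fun y => F y - F' x * y) (F' y - F' x)
      (segment ℝ x (x + δ)) y := by
    intro y _
    have := (hF y).sub ((hasDerivAt_id y).const_mul (F' x))
    simp only [id, mul_one] at this
    exact this.hasDerivWithinAt
  have h2 : ∀ y ∈ segment ℝ x (x + δ), ‖F' y - F' x‖ ≤ C0 * |δ| := by
    intro y hy
    rw [Real.norm_eq_abs]
    refine (hL y x).trans (mul_le_mul_of_nonneg_left ?_ hC0)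
    obtain ⟨a, b, ha, hb, hab, rfl⟩ := hy
    have : a • x + b • (x + δ) - x = b * δ := by
      simp only [smul_eq_mul]
      linear_combination x * hab
    rw [this, abs_mul, abs_of_nonneg hb]
    have hb1 : b ≤ 1 := by linarith
    nlinarith [abs_nonneg δ]
  have h3 := (convex_segment x (x + δ)).norm_image_sub_le_of_norm_hasDerivWithin_le h1 h2
    (left_mem_segment ℝ x (x + δ)) (right_mem_segment ℝ x (x + δ))
  rw [Real.norm_eq_abs, Real.norm_eq_abs] at h3
  have e1 : F (x + δ) - F' x * (x + δ) - (F x - F' x * x) = F (x + δ) - F x - δ * F' x := by ring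
  have e2 : x + δ - x = δ := by ring
  rw [e1, e2] at h3
  refine h3.trans (le_of_eq ?_)
  rw [mul_assoc, abs_mul_abs_self, pow_two]

/-- the estimate of one term -/
theorem one_term {F F' : ℝ → ℝ} {C0 : ℝ} (hF : ∀ z, HasDerivAt F (F' z) z)
    (hL : ∀ z z', |F' z - F' z'| ≤ C0 * |z - z'|) (z h e m y : ℝ) (h0 : 0 ≤ h)
    (he : e = 1 ∨ e = -1) (hy : |(F (z + h) + F (z - h)) / 2 - y| ≤ C0 * h ^ 3) :
    |F (z - h * (e - m)) - y + (F (z + h) - F (z - h)) / 2 * (e - m)| ≤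
      C0 * h ^ 3 + C0 * h ^ 2 * |m| * (2 + |m|) := by
  have hC0 : 0 ≤ C0 := by
    have := hL 1 0
    have h0 := abs_nonneg (F' 1 - F' 0)
    simp at this
    linarith
  set φ := (F (z + h) - F (z - h)) / 2 with hφ
  have hz := abs_le.1 (taylor hF hL z h)
  have hz' := abs_le.1 (taylor hF hL z (-h))
  rw [← sub_eq_add_neg] at hz'
  have hphi : |φ - h * F' z| ≤ C0 * h ^ 2 := by
    rw [abs_le, hφ]
    have e1 : (-h) ^ 2 = h ^ 2 := by ring
    rw [e1] at hz'
    constructor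
    · linarith [hz.1, hz'.2]
    · linarith [hz.2, hz'.1]
  have hx := taylor hF hL (z - h * e) (h * m)
  have e3 : z - h * (e - m) = z - h * e + h * m := by ring
  have hF1 : |F' (z - h * e) - F' z| ≤ C0 * h := by
    refine (hL _ _).trans ?_
    have : |z - h * e - z| = h := by
      have e4 : z - h * e - z = - (h * e) := by ring
      rw [e4, abs_neg, abs_mul, abs_of_nonneg h0]
      rcases he with rfl | rfl <;> simp
    rw [this]
  have hsplit : F (z - h * (e - m)) - y + φ * (e - m) =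
      ((F (z + h) + F (z - h)) / 2 - y) +
      (F (z - h * e + h * m) - F (z - h * e) - h * m * F' (z - h * e)) +
      h * m * (F' (z - h * e) - F' z) - m * (φ - h * F' z) := by
    rw [e3, hφ]
    rcases he with rfl | rfl
    · rw [mul_one]; ring
    · have : z - h * -1 = z + h := by ring
      rw [this]; ring
  rw [hsplit]
  have k1 : |h * m * (F' (z - h * e) - F' z)| ≤ h * |m| * (C0 * h) := by
    rw [abs_mul, abs_mul, abs_of_nonneg h0]
    exact mul_le_mul_of_nonneg_left hF1 (mul_nonneg h0 (abs_nonneg m))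
  have k2 : |m * (φ - h * F' z)| ≤ |m| * (C0 * h ^ 2) := by
    rw [abs_mul]
    exact mul_le_mul_of_nonneg_left hphi (abs_nonneg m)
  have k3 : C0 * (h * m) ^ 2 = C0 * h ^ 2 * |m| * |m| := by
    rw [mul_assoc (C0 * h ^ 2), abs_mul_abs_self]
    ring
  rw [k3] at hx
  calc _ ≤ |(F (z + h) + F (z - h)) / 2 - y| +
        |F (z - h * e + h * m) - F (z - h * e) - h * m * F' (z - h * e)| +
        |h * m * (F' (z - h * e) - F' z)| + |m * (φ - h * F' z)| := by
        refine (abs_sub _ _).trans ?_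
        refine add_le_add ((abs_add_le _ _).trans ?_) le_rfl
        exact add_le_add (abs_add_le _ _) le_rfl
    _ ≤ C0 * h ^ 3 + C0 * h ^ 2 * |m| * |m| + h * |m| * (C0 * h) + |m| * (C0 * h ^ 2) := by
        linarith
    _ = _ := by ring

variable {n : ℕ} {S : Finset (Fin n)} {ρ : Rule n} {t : ℕ} {G : SimpleGraph (Fin n)}

theorem abs_sum_ee_le (G : SimpleGraph (Fin n)) (a : Fin n) (T : Finset (Fin n)) :
    |∑ b ∈ T, ee G a b| ≤ T.card := by
  refine (abs_sum_le_sum_abs _ _).trans ?_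
  have : ∑ b ∈ T, |ee G a b| ≤ ∑ b ∈ T, (1 : ℝ) := sum_le_sum fun b _ => abs_ee_le G a b
  simpa using this

theorem card_le_n (T : Finset (Fin n)) : (T.card : ℝ) ≤ n := by
  have := card_le_univ T
  rw [Fintype.card_fin] at this
  exact_mod_cast this

theorem abs_Xt_le (a : Fin n) : |Xt S ρ t G a| ≤ n :=
  (abs_sum_ee_le G a _).trans (card_le_n _)

theorem abs_Xs_le (a : Fin n) : |Xs S ρ t G a| ≤ n := by
  unfold Xs
  split_ifs
  · exact (abs_sum_ee_le G a _).trans (card_le_n _)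
  · unfold Xn
    have h1 : Disjoint (NN S ρ t G) S := by
      unfold NN
      exact sdiff_disjoint
    rw [← sum_union h1]
    exact (abs_sum_ee_le G a _).trans (card_le_n _)

theorem abs_Xb_le : |Xb S ρ t G| ≤ n := by
  unfold Xb
  rcases Nat.eq_zero_or_pos (rr S ρ t G) with h | h
  · rw [h]
    simp
  · have hr : (0 : ℝ) < rr S ρ t G := by exact_mod_cast h
    rw [abs_div, abs_of_pos hr, div_le_iff₀ hr]
    refine (abs_sum_le_sum_abs _ _).trans ?_
    have : ∑ a ∈ NN S ρ t G, |Xt S ρ t G a| ≤ ∑ a ∈ NN S ρ t G, (n : ℝ) :=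
      sum_le_sum fun b _ => abs_Xt_le b
    rw [sum_const, nsmul_eq_mul] at this
    have e : (rr S ρ t G : ℝ) = ((NN S ρ t G).card : ℝ) := rfl
    rw [e]
    linarith

theorem abs_mu_le {V0 : ℝ} (hV0 : 1 ≤ V0) (hr0 : 0 < rr S ρ t G)
    (hr : (n : ℝ) / V0 ≤ (rr S ρ t G : ℝ)) (a : Fin n) : |mu S ρ t G a| ≤ 3 * V0 := by
  have hr1 : (0 : ℝ) < rr S ρ t G := by exact_mod_cast hr0
  unfold mu
  rw [abs_div, abs_of_pos hr1, div_le_iff₀ hr1]
  have h1 := abs_Xs_le (S := S) (ρ := ρ) (t := t) (G := G) a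
  have h2 := abs_Xt_le (S := S) (ρ := ρ) (t := t) (G := G) (ww S ρ t G)
  have h3 := abs_Xb_le (S := S) (ρ := ρ) (t := t) (G := G)
  have h4 : |Xs S ρ t G a + Xt S ρ t G (ww S ρ t G) - Xb S ρ t G| ≤ 3 * n := by
    refine (abs_sub _ _).trans ?_
    have := abs_add_le (Xs S ρ t G a) (Xt S ρ t G (ww S ρ t G))
    linarith
  rw [div_le_iff₀ (by linarith)] at hr
  nlinarith

theorem abs_mu_le' {V0 : ℝ} (hV0 : 1 ≤ V0) (hn : 0 < n) (hr0 : 0 < rr S ρ t G)
    (hr : (n : ℝ) / V0 ≤ (rr S ρ t G : ℝ)) (a : Fin n) : |mu S ρ t G a| ≤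
      V0 / n * (|Xs S ρ t G a| + (|Xt S ρ t G (ww S ρ t G)| + |Xb S ρ t G|)) := by
  have hr1 : (0 : ℝ) < rr S ρ t G := by exact_mod_cast hr0
  have hn0 : (0 : ℝ) < n := by exact_mod_cast hn
  unfold mu
  rw [abs_div, abs_of_pos hr1, div_le_iff₀ hr1]
  have h4 : |Xs S ρ t G a + Xt S ρ t G (ww S ρ t G) - Xb S ρ t G| ≤
      |Xs S ρ t G a| + (|Xt S ρ t G (ww S ρ t G)| + |Xb S ρ t G|) := by
    refine (abs_sub _ _).trans ?_
    have := abs_add_le (Xs S ρ t G a) (Xt S ρ t G (ww S ρ t G))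
    linarith
  have h5 : 1 ≤ V0 / n * (rr S ρ t G : ℝ) := by
    rw [div_mul_eq_mul_div, le_div_iff₀ hn0, one_mul]
    rw [div_le_iff₀ (by linarith)] at hr
    linarith
  set T := |Xs S ρ t G a| + (|Xt S ρ t G (ww S ρ t G)| + |Xb S ρ t G|) with hT
  have hT0 : 0 ≤ T := by positivity
  calc _ ≤ T := h4
    _ ≤ (V0 / n * (rr S ρ t G : ℝ)) * T := by nlinarith
    _ = _ := by ring

theorem uu_ge (b : Bool) (hn : 1 ≤ n) : √(n : ℝ) ≤ uu b n := by
  unfold uu
  have h1 : (1 : ℝ) ≤ n := by exact_mod_cast hn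
  split_ifs
  · exact le_rfl
  · rw [Real.sqrt_le_left (by linarith)]
    nlinarith

theorem uu_le (b : Bool) (hn : 1 ≤ n) : uu b n ≤ n := by
  unfold uu
  have h1 : (1 : ℝ) ≤ n := by exact_mod_cast hn
  split_ifs
  · rw [Real.sqrt_le_left (by linarith)]
    nlinarith
  · exact le_rfl

theorem card_S_le (hS : S.card = Nat.sqrt n) : (S.card : ℝ) ≤ √(n : ℝ) := by
  rw [hS]
  apply Real.le_sqrt_of_sq_le
  have := Nat.sqrt_le n
  rw [pow_two]
  exact_mod_cast this

theorem card_U_le (b : Bool) (hS : S.card = Nat.sqrt n) {U : Finset (Fin n)}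
    (hU : U ⊆ if b then SS S ρ t G else NN S ρ t G) : (U.card : ℝ) ≤ uu b n := by
  unfold uu
  cases b
  · simp only [Bool.false_eq_true, if_false]
    exact card_le_n U
  · simp only [if_true] at hU ⊢
    refine le_trans ?_ (card_S_le hS)
    have : U ⊆ S := hU.trans inter_subset_right
    exact_mod_cast card_le_card this

/-- sum of the tracked degrees -/
theorem sum_Xs_le (hc : S_PRC) {C : ℝ} (hn : 2 ≤ n) (hC : 1 ≤ C) (hPR : PRev C G)
    (b : Bool) (hS : S.card = Nat.sqrt n) {U : Finset (Fin n)}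
    (hU : U ⊆ if b then SS S ρ t G else NN S ρ t G) :
    ∑ a ∈ U, |Xs S ρ t G a| ≤ 8 * C * (n * √(2 * uu b n * Real.log n)) := by
  have hcard := card_U_le b hS hU
  have hn0 : (0 : ℝ) < n := by exact_mod_cast (by omega : 0 < n)
  have hlog : 0 ≤ Real.log n := Real.log_nonneg (by exact_mod_cast (by omega : 1 ≤ n))
  have huu0 : 0 ≤ uu b n := (Real.sqrt_nonneg _).trans (uu_ge b (by omega))
  have key := (hc n C G hn hC hPR).2.1 (fun _ => 1)
  have hbound : ∀ A B : Finset (Fin n), (A.card : ℝ) ≤ uu b n →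
      ∑ a ∈ A, |∑ b ∈ B, ee G a b| ≤ 4 * C * (n * √(2 * uu b n * Real.log n)) := by
    intro A B hA
    have h1 := key A B (fun _ => by simp)
    simp only [one_mul] at h1
    refine h1.trans (mul_le_mul_of_nonneg_left ?_ (by linarith))
    have h2 : (n : ℝ) * √(2 * uu b n * Real.log n) = √((n : ℝ) ^ 2 * (2 * uu b n * Real.log n)) := by
      rw [Real.sqrt_mul (sq_nonneg (n : ℝ)) (2 * uu b n * Real.log n), Real.sqrt_sq hn0.le]
    rw [h2]
    apply Real.sqrt_le_sqrt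
    have hA0 : (0 : ℝ) ≤ A.card := Nat.cast_nonneg _
    have hB0 : (0 : ℝ) ≤ B.card := Nat.cast_nonneg _
    have hAn := card_le_n A
    have hBn := card_le_n B
    have h3 : (A.card : ℝ) * B.card * ((A.card : ℝ) + B.card) ≤ uu b n * n * (n + n) := by
      apply mul_le_mul (mul_le_mul hA hBn hB0 huu0) (by linarith) (by linarith)
        (mul_nonneg huu0 hn0.le)
    calc (A.card : ℝ) * B.card * ((A.card : ℝ) + B.card) * Real.log n
        ≤ uu b n * n * (n + n) * Real.log n := mul_le_mul_of_nonneg_right h3 hlog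
      _ = _ := by ring
  cases b
  · simp only [Bool.false_eq_true, if_false] at hU
    have h1 : ∑ a ∈ U, |Xs S ρ t G a| ≤ ∑ a ∈ U, |∑ b ∈ NN S ρ t G, ee G a b| +
        ∑ a ∈ U, |∑ b ∈ S, ee G a b| := by
      rw [← sum_add_distrib]
      apply sum_le_sum
      intro a ha
      have haS : a ∉ S := (mem_sdiff.1 (hU ha)).2
      unfold Xs Xn
      rw [if_neg haS]
      exact abs_add_le _ _
    have h2 := hbound U (NN S ρ t G) hcard
    have h3 := hbound U S hcard
    linarith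
  · simp only [if_true] at hU
    have h1 : ∑ a ∈ U, |Xs S ρ t G a| = ∑ a ∈ U, |∑ b ∈ NN S ρ t G, ee G a b| := by
      apply sum_congr rfl
      intro a ha
      have haS : a ∈ S := (mem_inter.1 (hU ha)).2
      unfold Xs Xn
      rw [if_pos haS]
    rw [h1]
    have h2 := hbound U (NN S ρ t G) hcard
    have h3 : 0 ≤ 4 * C * (n * √(2 * uu true n * Real.log n)) := by positivity
    linarith

/-- the average -/
theorem Xb_le (hc : S_PRC) {C V0 : ℝ} (hV0 : 1 ≤ V0) (hn : 2 ≤ n) (hC : 1 ≤ C) (hPR : PRev C G)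
    (hr0 : 0 < rr S ρ t G) (hr : (n : ℝ) / V0 ≤ (rr S ρ t G : ℝ)) :
    |Xb S ρ t G| ≤ 4 * C * √(2 * V0 * n * Real.log n) := by
  have hr1 : (0 : ℝ) < rr S ρ t G := by exact_mod_cast hr0
  have hn0 : (0 : ℝ) < n := by exact_mod_cast (by omega : 0 < n)
  have hlog : 0 ≤ Real.log n := Real.log_nonneg (by exact_mod_cast (by omega : 1 ≤ n))
  have key := (hc n C G hn hC hPR).2.1 (fun _ => 1) (NN S ρ t G) (RR S ρ t G) (fun _ => by simp)
  simp only [one_mul] at key
  have h1 : |Xb S ρ t G| ≤ (∑ a ∈ NN S ρ t G, |∑ b ∈ RR S ρ t G, ee G a b|) / rr S ρ t G := by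
    unfold Xb
    rw [abs_div, abs_of_pos hr1]
    exact div_le_div_of_nonneg_right (abs_sum_le_sum_abs _ _) hr1.le
  refine h1.trans ?_
  rw [div_le_iff₀ hr1]
  refine key.trans ?_
  have e : ((NN S ρ t G).card : ℝ) = (rr S ρ t G : ℝ) := rfl
  rw [e, mul_assoc (4 * C)]
  refine mul_le_mul_of_nonneg_left ?_ (by linarith)
  have h2 : √(2 * V0 * n * Real.log n) * (rr S ρ t G : ℝ) =
      √((2 * V0 * n * Real.log n) * (rr S ρ t G : ℝ) ^ 2) := by
    rw [Real.sqrt_mul (by positivity) ((rr S ρ t G : ℝ) ^ 2), Real.sqrt_sq hr1.le]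
  rw [h2]
  apply Real.sqrt_le_sqrt
  have hRn := card_le_n (RR S ρ t G)
  have hrn : (rr S ρ t G : ℝ) ≤ n := card_le_n _
  have hR0 : (0 : ℝ) ≤ (RR S ρ t G).card := Nat.cast_nonneg _
  have h3 : (n : ℝ) ≤ V0 * rr S ρ t G := by
    rw [div_le_iff₀ (by linarith)] at hr
    linarith
  calc (rr S ρ t G : ℝ) * (RR S ρ t G).card * ((rr S ρ t G : ℝ) + (RR S ρ t G).card) * Real.log n
      ≤ (rr S ρ t G : ℝ) * n * (n + n) * Real.log n := by
        apply mul_le_mul_of_nonneg_right _ hlog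
        apply mul_le_mul (mul_le_mul_of_nonneg_left hRn hr1.le) (by linarith) (by linarith)
          (mul_nonneg hr1.le hn0.le)
    _ = (2 * n * Real.log n) * (rr S ρ t G : ℝ) * n := by ring
    _ ≤ (2 * n * Real.log n) * (rr S ρ t G : ℝ) * (V0 * rr S ρ t G) :=
        mul_le_mul_of_nonneg_left h3 (by positivity)
    _ = _ := by ring

theorem delta_tendsto : Filter.Tendsto (fun n : ℕ => √(Real.log n / √(n : ℝ))) Filter.atTop
    (nhds 0) := by
  have h1 : Filter.Tendsto (fun x : ℝ => Real.log x / x ^ (1 / 2 : ℝ)) Filter.atTop (nhds 0) :=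
    (isLittleO_log_rpow_atTop (by norm_num : (0 : ℝ) < 1 / 2)).tendsto_div_nhds_zero
  have h2 := h1.comp tendsto_natCast_atTop_atTop
  have h3 : Filter.Tendsto (fun n : ℕ => Real.log n / √(n : ℝ)) Filter.atTop (nhds 0) := by
    refine h2.congr fun n => ?_
    simp only [Function.comp]
    rw [Real.sqrt_eq_rpow]
  have h4 := h3.sqrt
  simpa using h4

/-- one step -/
theorem one_step (hz : S_ZStep) (hc : S_PRC) {V0 C0 C : ℝ} (hV0 : 1 ≤ V0)
    (hC0 : 0 < C0) (hC : 1 ≤ C) (hn : 2 ≤ n) (hS : S.card = Nat.sqrt n) (hρ : IsRule ρ)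
    (hPR : PRev C G) (b : Bool) (r0 r1 : ℕ) (f f' : ℕ → ℝ → ℝ)
    (U : ℕ → SimpleGraph (Fin n) → Finset (Fin n)) (hr0 : (n : ℝ) / V0 ≤ r0)
    (hf1 : ∀ r, r0 ≤ r → r ≤ r1 → ∀ z, HasDerivAt (f r) (f' r z) z)
    (hf3 : ∀ r, r0 ≤ r → r ≤ r1 → ∀ z z', |f' r z - f' r z'| ≤ C0 * |z - z'|)
    (hf4 : ∀ r, r0 < r → r ≤ r1 → ∀ z,
      |(f (r - 1) (z + hh n r) + f (r - 1) (z - hh n r)) / 2 - f r z| ≤ C0 * hh n r ^ 3)
    (hU : ∀ t G, U t G ⊆ if b then SS S ρ t G else NN S ρ t G) (j : ℕ) (hj : j < n) :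
    |inc S ρ G r0 r1 f U j +
      if Act S ρ j G V0 then Yv S ρ j G (gw S ρ G r0 r1 f U j) else 0| ≤
      uu b n * (8 * C0 * V0 ^ 3 / (n * √(n : ℝ))) +
      C0 * (2 + 3 * V0) * (4 * V0 ^ 3 / (n : ℝ) ^ 2) *
        (8 * C * (n * √(2 * uu b n * Real.log n)) +
          uu b n * (4 * C * √(2 * V0 * n * Real.log n))) +
      C0 * (2 + 3 * V0) * (4 * V0 ^ 3 / (n : ℝ) ^ 2) * uu b n *
        (if Act S ρ j G V0 then |Xt S ρ j G (ww S ρ j G)| else 0) := by
  have hn0 : (0 : ℝ) < n := by exact_mod_cast (by omega : 0 < n)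
  have hV0' : 0 < V0 := by linarith
  have hlog : 0 ≤ Real.log n := Real.log_nonneg (by exact_mod_cast (by omega : 1 ≤ n))
  have hsn : 0 < √(n : ℝ) := Real.sqrt_pos.2 hn0
  have huu0 : 0 ≤ uu b n := (Real.sqrt_nonneg _).trans (uu_ge b (by omega))
  by_cases hP : NP S ρ j G ∧ r0 < rr S ρ j G ∧ rr S ρ j G ≤ r1
  swap
  · have h1 : inc S ρ G r0 r1 f U j = 0 := by
      unfold inc
      rw [if_neg hP]
    have h2 : ∀ a, gw S ρ G r0 r1 f U j a = 0 := by
      intro a
      unfold gw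
      rw [if_neg]
      exact fun h => hP ⟨h.1, h.2.1, h.2.2.1⟩
    have h3 : Yv S ρ j G (gw S ρ G r0 r1 f U j) = 0 := by
      unfold Yv
      apply sum_eq_zero
      intro a _
      rw [h2, zero_mul]
    rw [h1, h3, ite_self, add_zero, abs_zero]
    have : 0 ≤ (if Act S ρ j G V0 then |Xt S ρ j G (ww S ρ j G)| else 0) := by
      split_ifs <;> positivity
    positivity
  obtain ⟨hNP, hr0r, hrr1⟩ := hP
  have hr0' : (0 : ℝ) < r0 := lt_of_lt_of_le (by positivity) hr0
  have hr0n : 0 < r0 := by exact_mod_cast hr0'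
  set r := rr S ρ j G with hrdef
  have hrr : (n : ℝ) / V0 ≤ (r : ℝ) := hr0.trans (by exact_mod_cast hr0r.le)
  have hAct : Act S ρ j G V0 := ⟨hNP, hrr⟩
  have hr2 : 2 ≤ r := by omega
  have hr2' : (2 : ℝ) ≤ r := by exact_mod_cast hr2
  rw [if_pos hAct, if_pos hAct]
  set w := ww S ρ j G with hw
  -- the step size
  have hr1' : 0 < (r : ℝ) - 1 := by linarith
  have hh0 : 0 ≤ hh n r := by
    unfold hh
    positivity
  have hh1 : hh n r ≤ 2 * V0 / √(n : ℝ) := by
    unfold hh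
    rw [div_le_div_iff₀ hr1' hsn, Real.mul_self_sqrt hn0.le]
    have h1 : (n : ℝ) ≤ V0 * r := by
      rw [div_le_iff₀ hV0'] at hrr
      linarith
    nlinarith
  have hhsq : hh n r ^ 2 ≤ 4 * V0 ^ 2 / n := by
    calc hh n r ^ 2 ≤ (2 * V0 / √(n : ℝ)) ^ 2 := pow_le_pow_left₀ hh0 hh1 2
      _ = 4 * V0 ^ 2 / n := by
        rw [div_pow, Real.sq_sqrt hn0.le]
        ring
  have hhcu : hh n r ^ 3 ≤ 8 * V0 ^ 3 / (n * √(n : ℝ)) := by
    calc hh n r ^ 3 ≤ (2 * V0 / √(n : ℝ)) ^ 3 := pow_le_pow_left₀ hh0 hh1 3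
      _ = 8 * V0 ^ 3 / (n * √(n : ℝ)) := by
        rw [div_pow, pow_succ √(n : ℝ) 2, Real.sq_sqrt hn0.le]
        ring
  -- the sum
  have hUR : U j G ⊆ RR S ρ j G := by
    refine (hU j G).trans ?_
    split_ifs
    · exact SS_sub S ρ j G
    · exact NN_sub S ρ j G
  set R : Fin n → ℝ := fun a =>
    (f (r - 1) (zz S ρ (j + 1) G a) - f r (zz S ρ j G a)) +
      (f (r - 1) (zz S ρ j G a + hh n r) - f (r - 1) (zz S ρ j G a - hh n r)) / 2 *
        (ee G a w - mu S ρ j G a) with hR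
  have hsum : inc S ρ G r0 r1 f U j + Yv S ρ j G (gw S ρ G r0 r1 f U j) =
      ∑ a ∈ (U j G).erase w, R a := by
    have h1 : inc S ρ G r0 r1 f U j = ∑ a ∈ (U j G).erase w,
        (f (r - 1) (zz S ρ (j + 1) G a) - f r (zz S ρ j G a)) := by
      unfold inc
      rw [if_pos ⟨hNP, hr0r, hrr1⟩]
    have h2 : Yv S ρ j G (gw S ρ G r0 r1 f U j) = ∑ a ∈ (U j G).erase w,
        (f (r - 1) (zz S ρ j G a + hh n r) - f (r - 1) (zz S ρ j G a - hh n r)) / 2 *
        (ee G a w - mu S ρ j G a) := by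
      unfold Yv
      have h3 : (U j G).erase w ⊆ (RR S ρ j G).erase w := erase_subset_erase _ hUR
      rw [← sum_subset h3]
      · apply sum_congr rfl
        intro a ha
        unfold gw
        rw [if_pos ⟨hNP, hr0r, hrr1, (mem_erase.1 ha).2⟩]
      · intro a ha hna
        have h4 : a ∉ U j G := fun h => hna (mem_erase.2 ⟨(mem_erase.1 ha).1, h⟩)
        unfold gw
        rw [if_neg (fun h => h4 h.2.2.2), zero_mul]
    rw [h1, h2, ← sum_add_distrib]
  rw [hsum]
  have hmu3 := fun a => abs_mu_le (S := S) (ρ := ρ) (t := j) (G := G) hV0 (by omega) hrr a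
  have hterm : ∀ a ∈ (U j G).erase w, |R a| ≤
      8 * C0 * V0 ^ 3 / (n * √(n : ℝ)) + C0 * (2 + 3 * V0) * (4 * V0 ^ 2 / n) * |mu S ρ j G a| := by
    intro a ha
    obtain ⟨ha1, ha2⟩ := mem_erase.1 ha
    have haR : a ∈ RR S ρ (j + 1) G := by
      rw [RR_succ]
      exact mem_erase.2 ⟨ha1, hUR ha2⟩
    have hzs := (hz n S ρ j G hρ hj).1 hNP.1 hr2 a haR
    have he : ee G a w = 1 ∨ ee G a w = -1 := by
      unfold ee
      rw [if_neg ha1]
      split_ifs
      · exact Or.inl rfl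
      · exact Or.inr rfl
    have h1 := one_term (hf1 (r - 1) (by omega) (by omega)) (hf3 (r - 1) (by omega) (by omega))
      (zz S ρ j G a) (hh n r) (ee G a w) (mu S ρ j G a) (f r (zz S ρ j G a)) hh0 he
      (hf4 r hr0r hrr1 _)
    have h2 : |R a| ≤ C0 * hh n r ^ 3 +
        C0 * hh n r ^ 2 * |mu S ρ j G a| * (2 + |mu S ρ j G a|) := by
      rw [hR]
      simp only
      rw [hzs]
      exact h1
    refine h2.trans (add_le_add ?_ ?_)
    · calc C0 * hh n r ^ 3 ≤ C0 * (8 * V0 ^ 3 / (n * √(n : ℝ))) :=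
            mul_le_mul_of_nonneg_left hhcu hC0.le
        _ = _ := by ring
    · have h3 := hmu3 a
      have h4 := abs_nonneg (mu S ρ j G a)
      calc C0 * hh n r ^ 2 * |mu S ρ j G a| * (2 + |mu S ρ j G a|)
          ≤ C0 * (4 * V0 ^ 2 / n) * |mu S ρ j G a| * (2 + 3 * V0) := by
            apply mul_le_mul (mul_le_mul_of_nonneg_right
              (mul_le_mul_of_nonneg_left hhsq hC0.le) h4) (by linarith) (by linarith)
              (by positivity)
        _ = _ := by ring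
  have hmu : ∀ a, |mu S ρ j G a| ≤ V0 / n * (|Xs S ρ j G a| + (|Xt S ρ j G w| + |Xb S ρ j G|)) :=
    fun a => abs_mu_le' hV0 (by omega) (by omega) hrr a
  have hcU := card_U_le b hS (hU j G)
  have hsX := sum_Xs_le hc hn hC hPR b hS (hU j G)
  have hXb := Xb_le hc hV0 hn hC hPR (by omega : 0 < rr S ρ j G) hrr
  have hmusum : ∑ a ∈ (U j G).erase w, |mu S ρ j G a| ≤ V0 / n *
      (8 * C * (n * √(2 * uu b n * Real.log n)) +
        uu b n * (|Xt S ρ j G w| + 4 * C * √(2 * V0 * n * Real.log n))) := by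
    calc ∑ a ∈ (U j G).erase w, |mu S ρ j G a| ≤ ∑ a ∈ U j G, |mu S ρ j G a| :=
          sum_le_sum_of_subset_of_nonneg (erase_subset _ _) fun _ _ _ => abs_nonneg _
      _ ≤ ∑ a ∈ U j G, V0 / n * (|Xs S ρ j G a| + (|Xt S ρ j G w| + |Xb S ρ j G|)) :=
          sum_le_sum fun a _ => hmu a
      _ = V0 / n * (∑ a ∈ U j G, |Xs S ρ j G a| +
            (U j G).card * (|Xt S ρ j G w| + |Xb S ρ j G|)) := by
          rw [← mul_sum, sum_add_distrib, sum_const, nsmul_eq_mul]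
      _ ≤ _ := by
          apply mul_le_mul_of_nonneg_left _ (by positivity)
          apply add_le_add hsX
          apply mul_le_mul hcU _ (by positivity) huu0
          linarith
  calc |∑ a ∈ (U j G).erase w, R a| ≤ ∑ a ∈ (U j G).erase w, |R a| := abs_sum_le_sum_abs _ _
    _ ≤ ∑ a ∈ (U j G).erase w, (8 * C0 * V0 ^ 3 / (n * √(n : ℝ)) +
        C0 * (2 + 3 * V0) * (4 * V0 ^ 2 / n) * |mu S ρ j G a|) := sum_le_sum hterm
    _ = ((U j G).erase w).card * (8 * C0 * V0 ^ 3 / (n * √(n : ℝ))) +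
        C0 * (2 + 3 * V0) * (4 * V0 ^ 2 / n) * ∑ a ∈ (U j G).erase w, |mu S ρ j G a| := by
        rw [sum_add_distrib, sum_const, nsmul_eq_mul, ← mul_sum]
    _ ≤ uu b n * (8 * C0 * V0 ^ 3 / (n * √(n : ℝ))) +
        C0 * (2 + 3 * V0) * (4 * V0 ^ 2 / n) * (V0 / n *
      (8 * C * (n * √(2 * uu b n * Real.log n)) +
        uu b n * (|Xt S ρ j G w| + 4 * C * √(2 * V0 * n * Real.log n)))) := by
        apply add_le_add
        · apply mul_le_mul_of_nonneg_right _ (by positivity)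
          refine le_trans ?_ hcU
          exact_mod_cast card_le_card (erase_subset _ _)
        · exact mul_le_mul_of_nonneg_left hmusum (by positivity)
    _ = _ := by
        field_simp
        ring

theorem flrem (_hb : S_Basic) (hz : S_ZStep) (hc : S_PRC) (hx : S_SumX) : S_FLrem := by
  intro V0 C0 C ε hV0 hC0 hC hε
  obtain ⟨K, n1, hK⟩ := hx V0 C hV0 hC
  set M : ℝ := 8 * C0 * V0 ^ 3 + C0 * (2 + 3 * V0) * (4 * V0 ^ 3) *
    (8 * C * √2 + 4 * C * √(2 * V0) + |K|) with hM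
  have hV0' : 0 < V0 := by linarith
  have hC' : 0 < C := by linarith
  have hM0 : 0 ≤ M := by positivity
  have hev := delta_tendsto.eventually_le_const (show (0 : ℝ) < ε / (M + 1) by positivity)
  obtain ⟨n2, hn2⟩ := Filter.eventually_atTop.1 hev
  refine ⟨max (max n1 n2) 3, fun n hn S ρ G hS hρ hPR b r0 r1 f f' U hr0 hf1 hf2 hf3 hf4 hU t ht
    => ?_⟩
  have hnn1 : n1 ≤ n := (le_max_left _ _).trans ((le_max_left _ _).trans hn)
  have hnn2 : n2 ≤ n := (le_max_right _ _).trans ((le_max_left _ _).trans hn)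
  have hn3 : 3 ≤ n := (le_max_right _ _).trans hn
  have hn0 : (0 : ℝ) < n := by exact_mod_cast (by omega : 0 < n)
  have hn3' : (3 : ℝ) ≤ n := by exact_mod_cast hn3
  have hsn : 0 < √(n : ℝ) := Real.sqrt_pos.2 hn0
  have hlog1 : 1 ≤ Real.log n := by
    rw [Real.le_log_iff_exp_le hn0]
    have := Real.exp_one_lt_d9
    linarith
  have hlog : 0 ≤ Real.log n := by linarith
  have huu1 := uu_ge (n := n) b (by omega)
  have huu0 : 0 < uu b n := lt_of_lt_of_le hsn huu1
  set δ := √(Real.log n / √(n : ℝ)) with hδ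
  have hδ0 : 0 ≤ δ := Real.sqrt_nonneg _
  have hδε : δ ≤ ε / (M + 1) := hn2 n hnn2
  have hsx := hK n hnn1 S ρ G hS hρ hPR
  -- the three quantities
  have q1 : 1 / √(n : ℝ) ≤ δ := by
    rw [hδ]
    apply Real.le_sqrt_of_sq_le
    rw [div_pow, one_pow, Real.sq_sqrt hn0.le, div_le_div_iff₀ hn0 hsn, one_mul]
    have h1 : √(n : ℝ) ≤ n := by
      rw [Real.sqrt_le_left (by linarith)]
      nlinarith
    nlinarith
  have q2 : √(2 * uu b n * Real.log n) ≤ uu b n * (√2 * δ) := by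
    have h1 : uu b n * (√2 * δ) = √(uu b n ^ 2 * (2 * (Real.log n / √(n : ℝ)))) := by
      rw [hδ, Real.sqrt_mul (by positivity), Real.sqrt_sq huu0.le,
        Real.sqrt_mul (by norm_num : (0 : ℝ) ≤ 2)]
    rw [h1]
    apply Real.sqrt_le_sqrt
    have h2 : uu b n ^ 2 * (2 * (Real.log n / √(n : ℝ))) =
        (2 * uu b n * Real.log n) * (uu b n / √(n : ℝ)) := by ring
    rw [h2]
    have h3 : 1 ≤ uu b n / √(n : ℝ) := by rw [le_div_iff₀ hsn]; linarith
    have h4 : 0 ≤ 2 * uu b n * Real.log n := by positivity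
    nlinarith
  have q0 : √(Real.log n) / √(n : ℝ) ≤ δ := by
    rw [hδ, ← Real.sqrt_div hlog]
    apply Real.sqrt_le_sqrt
    apply div_le_div_of_nonneg_left hlog hsn
    rw [Real.sqrt_le_left (by linarith)]
    nlinarith
  have q3 : √(2 * V0 * n * Real.log n) ≤ n * (√(2 * V0) * δ) := by
    have h1 : √(2 * V0 * n * Real.log n) = n * (√(2 * V0) * (√(Real.log n) / √(n : ℝ))) := by
      rw [Real.sqrt_mul (by positivity), Real.sqrt_mul (by positivity)]
      have : √(n : ℝ) * √(n : ℝ) = n := Real.mul_self_sqrt hn0.le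
      field_simp
      rw [pow_two, this]
    rw [h1]
    apply mul_le_mul_of_nonneg_left _ hn0.le
    exact mul_le_mul_of_nonneg_left q0 (Real.sqrt_nonneg _)
  set A := uu b n * (8 * C0 * V0 ^ 3 / (n * √(n : ℝ))) with hA
  set B := C0 * (2 + 3 * V0) * (4 * V0 ^ 3 / (n : ℝ) ^ 2) *
        (8 * C * (n * √(2 * uu b n * Real.log n)) +
          uu b n * (4 * C * √(2 * V0 * n * Real.log n))) with hB
  set D := C0 * (2 + 3 * V0) * (4 * V0 ^ 3 / (n : ℝ) ^ 2) * uu b n with hD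
  have hA0 : 0 ≤ A := by positivity
  have hB0 : 0 ≤ B := by positivity
  have hD0 : 0 ≤ D := by positivity
  have hstep : ∀ j ∈ range t, |inc S ρ G r0 r1 f U j +
      if Act S ρ j G V0 then Yv S ρ j G (gw S ρ G r0 r1 f U j) else 0| ≤
      A + B + D * (if Act S ρ j G V0 then |Xt S ρ j G (ww S ρ j G)| else 0) := by
    intro j hj
    exact one_step hz hc hV0 hC0 hC (by omega) hS hρ hPR b r0 r1 f f' U hr0 hf1 hf3 hf4 hU j
      (lt_of_lt_of_le (mem_range.1 hj) ht)
  refine (abs_sum_le_sum_abs _ _).trans ((sum_le_sum hstep).trans ?_)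
  rw [sum_add_distrib, sum_const, nsmul_eq_mul, card_range, ← mul_sum]
  have ht' : (t : ℝ) ≤ n := by exact_mod_cast ht
  have hsum2 : ∑ j ∈ range t, (if Act S ρ j G V0 then |Xt S ρ j G (ww S ρ j G)| else 0) ≤
      |K| * (n : ℝ) * √(n : ℝ) * √(Real.log n) := by
    calc _ ≤ ∑ j ∈ range n, (if Act S ρ j G V0 then |Xt S ρ j G (ww S ρ j G)| else 0) := by
          apply sum_le_sum_of_subset_of_nonneg
          · exact range_subset_range.2 ht
          · intro j _ _
            split_ifs <;> positivity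
      _ ≤ K * (n : ℝ) * √(n : ℝ) * √(Real.log n) := hsx
      _ ≤ _ := by
          have : K * ((n : ℝ) * √(n : ℝ) * √(Real.log n)) ≤
              |K| * ((n : ℝ) * √(n : ℝ) * √(Real.log n)) :=
            mul_le_mul_of_nonneg_right (le_abs_self K) (by positivity)
          calc _ = K * ((n : ℝ) * √(n : ℝ) * √(Real.log n)) := by ring
            _ ≤ _ := this
            _ = _ := by ring
  have hAn : n * A ≤ uu b n * (8 * C0 * V0 ^ 3) * δ := by
    have : n * A = uu b n * (8 * C0 * V0 ^ 3) * (1 / √(n : ℝ)) := by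
      rw [hA]
      field_simp
    rw [this]
    exact mul_le_mul_of_nonneg_left q1 (by positivity)
  have hBn : n * B ≤ uu b n * (C0 * (2 + 3 * V0) * (4 * V0 ^ 3) *
      (8 * C * √2 + 4 * C * √(2 * V0))) * δ := by
    calc n * B ≤ n * (C0 * (2 + 3 * V0) * (4 * V0 ^ 3 / (n : ℝ) ^ 2) *
        (8 * C * (n * (uu b n * (√2 * δ))) +
          uu b n * (4 * C * (n * (√(2 * V0) * δ))))) := by
          rw [hB]
          gcongr
      _ = _ := by
          field_simp
  have hDn : D * ∑ j ∈ range t, (if Act S ρ j G V0 then |Xt S ρ j G (ww S ρ j G)| else 0) ≤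
      uu b n * (C0 * (2 + 3 * V0) * (4 * V0 ^ 3) * |K|) * δ := by
    calc _ ≤ D * (|K| * (n : ℝ) * √(n : ℝ) * √(Real.log n)) :=
          mul_le_mul_of_nonneg_left hsum2 hD0
      _ = uu b n * (C0 * (2 + 3 * V0) * (4 * V0 ^ 3) * |K|) * (√(Real.log n) / √(n : ℝ)) := by
          rw [hD]
          have : √(n : ℝ) * √(n : ℝ) = n := Real.mul_self_sqrt hn0.le
          field_simp
          rw [pow_two, this]
          ring
      _ ≤ _ := mul_le_mul_of_nonneg_left q0 (by positivity)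
  have hfin : uu b n * M * δ ≤ ε * uu b n := by
    have h1 : M * δ ≤ ε := by
      calc M * δ ≤ (M + 1) * (ε / (M + 1)) :=
            mul_le_mul (by linarith) hδε hδ0 (by linarith)
        _ = ε := by field_simp
    calc uu b n * M * δ = uu b n * (M * δ) := by ring
      _ ≤ uu b n * ε := mul_le_mul_of_nonneg_left h1 huu0.le
      _ = ε * uu b n := by ring
  have htAB : (t : ℝ) * (A + B) ≤ n * A + n * B := by
    rw [← mul_add]
    exact mul_le_mul_of_nonneg_right ht' (by linarith)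
  have hMe : uu b n * M * δ = uu b n * (8 * C0 * V0 ^ 3) * δ +
      uu b n * (C0 * (2 + 3 * V0) * (4 * V0 ^ 3) * (8 * C * √2 + 4 * C * √(2 * V0))) * δ +
      uu b n * (C0 * (2 + 3 * V0) * (4 * V0 ^ 3) * |K|) * δ := by
    rw [hM]
    ring
  linarith only [hfin, htAB, hMe, hAn, hBn, hDn]

end

end W358.PK
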