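import Pool.Agent.W841.PK.Api

/-! The two switching identities. -/

set_option autoImplicit false

namespace W358.PK

open Finset W841.PK
open scoped Classical symmDiff

noncomputable section

variable {n : ℕ} {S : Finset (Fin n)} {ρ : Rule n} {t : ℕ} {G : SimpleGraph (Fin n)}

theorem mem_Aw {w2 a : Fin n} : a ∈ Aw S ρ t G w2 ↔ a ∈ RR S ρ t G ∧ a ≠ ww S ρ t G ∧ a ≠ w2 ∧
    G.Adj a (ww S ρ t G) ∧ ¬ G.Adj a w2 := by
  unfold Aw; rw [mem_filter]

theorem mem_Bw {w2 a : Fin n} : a ∈ Bw S ρ t G w2 ↔ a ∈ RR S ρ t G ∧ a ≠ ww S ρ t G ∧ a ≠ w2 ∧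
    G.Adj a w2 ∧ ¬ G.Adj a (ww S ρ t G) := by
  unfold Bw; rw [mem_filter]

theorem swok_iff {w2 x y : Fin n} : SwOK S ρ t G w2 x y ↔
    NP S ρ t G ∧ w2 ∈ (NN S ρ t G).erase (ww S ρ t G) ∧ x ∈ Aw S ρ t G w2 ∧
      y ∈ Bw S ρ t G w2 := by
  rw [mem_Aw, mem_Bw, mem_erase]
  unfold SwOK
  tauto

theorem disj_AB (w2 : Fin n) : Disjoint (Aw S ρ t G w2) (Bw S ρ t G w2) := by
  rw [disjoint_left]
  intro a h1 h2
  rw [mem_Aw] at h1
  rw [mem_Bw] at h2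
  exact h2.2.2.2.2 h1.2.2.2.1

/-- difference of the degrees -/
theorem Xt_sub {w2 : Fin n} (hNP : NP S ρ t G) (hw2 : w2 ∈ (NN S ρ t G).erase (ww S ρ t G)) :
    Xt S ρ t G (ww S ρ t G) - Xt S ρ t G w2 =
      2 * (((Aw S ρ t G w2).card : ℝ) - ((Bw S ρ t G w2).card : ℝ)) := by
  obtain ⟨h1, h2⟩ := mem_erase.1 hw2
  have h3 : w2 ∈ RR S ρ t G := NN_sub S ρ t G h2
  have h4 : ww S ρ t G ∈ RR S ρ t G := hNP.2
  set w := ww S ρ t G with hw
  unfold Xt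
  rw [← sum_sub_distrib]
  have h5 : w2 ∈ (RR S ρ t G).erase w := mem_erase.2 ⟨h1, h3⟩
  rw [← add_sum_erase _ _ h4, ← add_sum_erase _ _ h5, ee_self, ee_self, ee_comm G w2 w]
  have h6 : ∑ b ∈ ((RR S ρ t G).erase w).erase w2, (ee G w b - ee G w2 b) =
      ∑ b ∈ ((RR S ρ t G).erase w).erase w2, (2 * (if b ∈ Aw S ρ t G w2 then 1 else 0) -
        2 * (if b ∈ Bw S ρ t G w2 then 1 else 0) : ℝ) := by
    apply sum_congr rfl
    intro b hb
    rw [mem_erase, mem_erase] at hb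
    obtain ⟨hb1, hb2, hb3⟩ := hb
    have hA : b ∈ Aw S ρ t G w2 ↔ G.Adj b w ∧ ¬ G.Adj b w2 := by rw [mem_Aw]; tauto
    have hB : b ∈ Bw S ρ t G w2 ↔ G.Adj b w2 ∧ ¬ G.Adj b w := by rw [mem_Bw]; tauto
    unfold ee
    rw [if_neg (Ne.symm hb2), if_neg (Ne.symm hb1)]
    simp only [hA, hB, G.adj_comm w b, G.adj_comm w2 b]
    by_cases k1 : G.Adj b w <;> by_cases k2 : G.Adj b w2 <;>
      simp [k1, k2] <;> norm_num
  have h7 : ∀ T : Finset (Fin n), T ⊆ ((RR S ρ t G).erase w).erase w2 →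
      ∑ b ∈ ((RR S ρ t G).erase w).erase w2, (if b ∈ T then 1 else 0 : ℝ) = T.card := by
    intro T hT
    rw [← sum_filter, sum_const, nsmul_eq_mul, mul_one, filter_mem_eq_inter,
      inter_eq_right.2 hT]
  rw [h6, sum_sub_distrib, ← mul_sum, ← mul_sum, h7, h7]
  · ring
  · intro b hb
    rw [mem_Bw] at hb
    exact mem_erase.2 ⟨hb.2.2.1, mem_erase.2 ⟨hb.2.1, hb.1⟩⟩
  · intro b hb
    rw [mem_Aw] at hb
    exact mem_erase.2 ⟨hb.2.2.1, mem_erase.2 ⟨hb.2.1, hb.1⟩⟩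

/-- the statistic times `Dl` -/
theorem Dl_mul_Dd {w2 : Fin n} (hNP : NP S ρ t G) (hw2 : w2 ∈ (NN S ρ t G).erase (ww S ρ t G))
    (g : Fin n → ℝ) : Dl S ρ t G w2 * Dd S ρ t G g w2 =
      2 * (((Bw S ρ t G w2).card : ℝ) * ∑ a ∈ Aw S ρ t G w2, g a -
        ((Aw S ρ t G w2).card : ℝ) * ∑ a ∈ Bw S ρ t G w2, g a) := by
  have h1 : Dd S ρ t G g w2 = (∑ a ∈ Aw S ρ t G w2, g a) * (1 - qh S ρ t G w2) +
      (∑ a ∈ Bw S ρ t G w2, g a) * (-1 - qh S ρ t G w2) := by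
    unfold Dd
    rw [sum_union (disj_AB w2), sum_mul, sum_mul]
    congr 1
    · apply sum_congr rfl
      intro a ha
      rw [mem_Aw] at ha
      unfold ee
      rw [if_neg ha.2.1, if_pos ha.2.2.2.1]
    · apply sum_congr rfl
      intro a ha
      rw [mem_Bw] at ha
      unfold ee
      rw [if_neg ha.2.1, if_neg ha.2.2.2.2]
  rw [h1]
  by_cases hD : Dl S ρ t G w2 = 0
  · have h2 : ((Aw S ρ t G w2).card : ℝ) = 0 ∧ ((Bw S ρ t G w2).card : ℝ) = 0 := by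
      unfold Dl at hD
      have h3 : (0 : ℝ) ≤ ((Aw S ρ t G w2).card : ℝ) := Nat.cast_nonneg _
      have h4 : (0 : ℝ) ≤ ((Bw S ρ t G w2).card : ℝ) := Nat.cast_nonneg _
      exact ⟨by linarith, by linarith⟩
    rw [hD, h2.1, h2.2]
    ring
  · have h2 : Dl S ρ t G w2 * qh S ρ t G w2 = ((Aw S ρ t G w2).card : ℝ) - ((Bw S ρ t G w2).card : ℝ)
        := by
      unfold qh
      rw [Xt_sub hNP hw2]
      field_simp
    have h3 : Dl S ρ t G w2 = ((Aw S ρ t G w2).card : ℝ) + ((Bw S ρ t G w2).card : ℝ) := rfl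
    calc Dl S ρ t G w2 * ((∑ a ∈ Aw S ρ t G w2, g a) * (1 - qh S ρ t G w2) +
          (∑ a ∈ Bw S ρ t G w2, g a) * (-1 - qh S ρ t G w2))
        = (∑ a ∈ Aw S ρ t G w2, g a) * (Dl S ρ t G w2 - Dl S ρ t G w2 * qh S ρ t G w2) +
          (∑ a ∈ Bw S ρ t G w2, g a) * (- Dl S ρ t G w2 - Dl S ρ t G w2 * qh S ρ t G w2) := by ring
      _ = _ := by rw [h2, h3]; ring

theorem Dd_zero {w2 : Fin n} (g : Fin n → ℝ) (h : Dl S ρ t G w2 = 0) : Dd S ρ t G g w2 = 0 := by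
  have h2 : (Aw S ρ t G w2).card = 0 ∧ (Bw S ρ t G w2).card = 0 := by
    unfold Dl at h
    have h3 : (0 : ℝ) ≤ ((Aw S ρ t G w2).card : ℝ) := Nat.cast_nonneg _
    have h4 : (0 : ℝ) ≤ ((Bw S ρ t G w2).card : ℝ) := Nat.cast_nonneg _
    constructor
    · exact_mod_cast (by linarith : ((Aw S ρ t G w2).card : ℝ) = 0)
    · exact_mod_cast (by linarith : ((Bw S ρ t G w2).card : ℝ) = 0)
  unfold Dd
  rw [card_eq_zero.1 h2.1, card_eq_zero.1 h2.2]
  simp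

theorem sum_xy {w2 : Fin n} (hNP : NP S ρ t G) (hw2 : w2 ∈ (NN S ρ t G).erase (ww S ρ t G))
    (g : Fin n → ℝ) : ∑ x ∈ Aw S ρ t G w2, ∑ y ∈ Bw S ρ t G w2, 2 * (g x - g y) =
      Dl S ρ t G w2 * Dd S ρ t G g w2 := by
  rw [Dl_mul_Dd hNP hw2]
  simp only [← mul_sum, sum_sub_distrib, sum_const, nsmul_eq_mul]

/-- the sets after a switching -/
theorem AB_swp (hs : S_Swap) {w2 x y : Fin n} (hOK : SwOK S ρ t G w2 x y) :
    Aw S ρ t (swp G (ww S ρ t G) w2 x y) w2 = insert y ((Aw S ρ t G w2).erase x) ∧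
    Bw S ρ t (swp G (ww S ρ t G) w2 x y) w2 = insert x ((Bw S ρ t G w2).erase y) := by
  obtain ⟨h1, h2, h3, h4, h5⟩ := hs n S ρ t G w2 x y hOK
  have hRR := (h1 t le_rfl).1
  have hOK' := h3
  obtain ⟨⟨hw, hwR⟩, hw2N, hww, hxR, hyR, hxw, hxw2, hyw, hyw2, a1, a2, a3, a4⟩ := hOK
  obtain ⟨-, -, -, -, -, -, -, -, -, b1, b2, b3, b4⟩ := hOK'
  rw [h2] at b1 b4
  set w := ww S ρ t G with hwdef
  set G' := swp G w w2 x y with hG'
  have hadj : ∀ a b, s(a, b) ∉ ({s(w, x), s(x, w2), s(w2, y), s(y, w)} : Set (Sym2 (Fin n))) →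
      a ≠ b → (G'.Adj a b ↔ G.Adj a b) := by
    intro a b hab hne
    have := h5 a b
    rw [if_neg hab] at this
    unfold ee at this
    rw [if_neg hne, if_neg hne] at this
    by_cases k1 : G'.Adj a b <;> by_cases k2 : G.Adj a b
    · exact ⟨fun _ => k2, fun _ => k1⟩
    · rw [if_pos k1, if_neg k2] at this
      norm_num at this
    · rw [if_neg k1, if_pos k2] at this
      norm_num at this
    · exact ⟨fun h => absurd h k1, fun h => absurd h k2⟩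
  have hxy : x ≠ y := by
    intro h
    rw [h] at a1
    exact a4 a1
  have hadw : ∀ a, a ≠ w → a ≠ w2 → a ≠ x → a ≠ y →
      (G'.Adj a w ↔ G.Adj a w) ∧ (G'.Adj a w2 ↔ G.Adj a w2) := by
    intro a e1 e2 e3 e4
    constructor
    · apply hadj a w _ e1
      simp only [Set.mem_insert_iff, Set.mem_singleton_iff, Sym2.eq_iff]
      tauto
    · apply hadj a w2 _ e2
      simp only [Set.mem_insert_iff, Set.mem_singleton_iff, Sym2.eq_iff]
      tauto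
  constructor
  · ext a
    rw [mem_Aw, mem_insert, mem_erase, mem_Aw, h2, ← hRR, ← hwdef]
    by_cases hax : a = x
    · subst hax
      simp only [b4, hxy, ne_eq, not_true_eq_false, false_and, and_false, or_false]
    · by_cases hay : a = y
      · subst hay
        simp only [hyR, hyw, hyw2, b1, b2, ne_eq, not_false_eq_true, and_true, true_or]
      · by_cases haw : a = w
        · simp [haw, hyw.symm]
        · by_cases haw2 : a = w2
          · simp [haw2, hyw2.symm]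
          · obtain ⟨c1, c2⟩ := hadw a haw haw2 hax hay
            rw [c1, c2]
            simp [hax, hay]
  · ext a
    rw [mem_Bw, mem_insert, mem_erase, mem_Bw, h2, ← hRR, ← hwdef]
    by_cases hay : a = y
    · subst hay
      simp only [b2, hxy.symm, ne_eq, not_true_eq_false, false_and, and_false, or_false]
    · by_cases hax : a = x
      · subst hax
        simp only [hxR, hxw, hxw2, b3, b4, ne_eq, not_false_eq_true, and_true, true_or]
      · by_cases haw : a = w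
        · simp [haw, hxw.symm]
        · by_cases haw2 : a = w2
          · simp [haw2, hxw2.symm]
          · obtain ⟨c1, c2⟩ := hadw a haw haw2 hax hay
            rw [c1, c2]
            simp [hax, hay]

theorem Dd_swp (hs : S_Swap) {w2 x y : Fin n} (hOK : SwOK S ρ t G w2 x y) (g : Fin n → ℝ) :
    Dl S ρ t (swp G (ww S ρ t G) w2 x y) w2 = Dl S ρ t G w2 ∧
    Dd S ρ t (swp G (ww S ρ t G) w2 x y) g w2 = Dd S ρ t G g w2 - 2 * (g x - g y) := by
  obtain ⟨hA, hB⟩ := AB_swp hs hOK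
  obtain ⟨-, h2, h3, -, -⟩ := hs n S ρ t G w2 x y hOK
  obtain ⟨e1, e2, e3, e4⟩ := swok_iff.1 hOK
  obtain ⟨f1, f2, f3, f4⟩ := swok_iff.1 h3
  have hyA : y ∉ Aw S ρ t G w2 := fun h => disjoint_left.1 (disj_AB w2) h e4
  have hxB : x ∉ Bw S ρ t G w2 := fun h => disjoint_left.1 (disj_AB w2) e3 h
  have hyA' : y ∉ (Aw S ρ t G w2).erase x := fun h => hyA (mem_erase.1 h).2
  have hxB' : x ∉ (Bw S ρ t G w2).erase y := fun h => hxB (mem_erase.1 h).2
  have cA : (Aw S ρ t (swp G (ww S ρ t G) w2 x y) w2).card = (Aw S ρ t G w2).card := by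
    rw [hA, card_insert_of_notMem hyA', card_erase_of_mem e3]
    have : 0 < (Aw S ρ t G w2).card := card_pos.2 ⟨x, e3⟩
    omega
  have cB : (Bw S ρ t (swp G (ww S ρ t G) w2 x y) w2).card = (Bw S ρ t G w2).card := by
    rw [hB, card_insert_of_notMem hxB', card_erase_of_mem e4]
    have : 0 < (Bw S ρ t G w2).card := card_pos.2 ⟨y, e4⟩
    omega
  have hDl : Dl S ρ t (swp G (ww S ρ t G) w2 x y) w2 = Dl S ρ t G w2 := by
    unfold Dl
    rw [cA, cB]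
  refine ⟨hDl, ?_⟩
  have hD0 : Dl S ρ t G w2 ≠ 0 := by
    have h5 : (0 : ℝ) < ((Aw S ρ t G w2).card : ℝ) := by exact_mod_cast card_pos.2 ⟨x, e3⟩
    have h6 : (0 : ℝ) ≤ ((Bw S ρ t G w2).card : ℝ) := Nat.cast_nonneg _
    unfold Dl
    linarith
  have k1 := Dl_mul_Dd e1 e2 g
  have k2 := Dl_mul_Dd f1 f2 g
  rw [hDl, cA, cB] at k2
  have sA : ∑ a ∈ Aw S ρ t (swp G (ww S ρ t G) w2 x y) w2, g a =
      ∑ a ∈ Aw S ρ t G w2, g a - g x + g y := by
    rw [hA, sum_insert hyA', ← add_sum_erase _ _ e3]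
    ring
  have sB : ∑ a ∈ Bw S ρ t (swp G (ww S ρ t G) w2 x y) w2, g a =
      ∑ a ∈ Bw S ρ t G w2, g a - g y + g x := by
    rw [hB, sum_insert hxB', ← add_sum_erase _ _ e4]
    ring
  rw [sA, sB] at k2
  have h7 : Dl S ρ t G w2 = ((Aw S ρ t G w2).card : ℝ) + ((Bw S ρ t G w2).card : ℝ) := rfl
  apply mul_left_cancel₀ hD0
  have h8 : Dl S ρ t G w2 * (Dd S ρ t G g w2 - 2 * (g x - g y)) =
      Dl S ρ t G w2 * Dd S ρ t G g w2 - Dl S ρ t G w2 * (2 * (g x - g y)) := by ring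
  rw [k2, h8, k1, h7]
  ring

/-- the set of switchings -/
def QQ (S : Finset (Fin n)) (ρ : Rule n) (t : ℕ) :
    Finset (SimpleGraph (Fin n) × Fin n × Fin n × Fin n) :=
  univ.filter (fun q => SwOK S ρ t q.1 q.2.1 q.2.2.1 q.2.2.2)

theorem sum_QQ (T : SimpleGraph (Fin n) → Fin n → Fin n → Fin n → ℝ) :
    ∑ G, (if NP S ρ t G then ∑ w2 ∈ (NN S ρ t G).erase (ww S ρ t G),
      ∑ x ∈ Aw S ρ t G w2, ∑ y ∈ Bw S ρ t G w2, T G w2 x y else 0) =
    ∑ q ∈ QQ S ρ t, T q.1 q.2.1 q.2.2.1 q.2.2.2 := by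
  unfold QQ
  rw [sum_filter, Fintype.sum_prod_type]
  apply sum_congr rfl
  intro G _
  rw [Fintype.sum_prod_type]
  by_cases hNP : NP S ρ t G
  · rw [if_pos hNP]
    have e1 : ∀ (E : Finset (Fin n)) (f : Fin n → ℝ), ∑ a ∈ E, f a = ∑ a, if a ∈ E then f a else 0 := by
      intro E f
      rw [← sum_filter]
      congr 1
      ext a
      simp
    rw [e1]
    apply sum_congr rfl
    intro w2 _
    rw [Fintype.sum_prod_type]
    by_cases hw2 : w2 ∈ (NN S ρ t G).erase (ww S ρ t G)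
    · rw [if_pos hw2, e1]
      apply sum_congr rfl
      intro x _
      by_cases hx : x ∈ Aw S ρ t G w2
      · rw [if_pos hx, e1]
        apply sum_congr rfl
        intro y _
        simp only [swok_iff, hNP, hw2, hx, true_and]
      · rw [if_neg hx]
        symm
        apply sum_eq_zero
        intro y _
        simp only [swok_iff, hx, false_and, and_false, if_false]
    · rw [if_neg hw2]
      symm
      apply sum_eq_zero
      intro x _
      apply sum_eq_zero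
      intro y _
      simp only [swok_iff, hw2, false_and, and_false, if_false]
  · rw [if_neg hNP]
    symm
    apply sum_eq_zero
    intro w2 _
    rw [Fintype.sum_prod_type]
    apply sum_eq_zero
    intro x _
    apply sum_eq_zero
    intro y _
    simp only [swok_iff, hNP, false_and, if_false]

theorem sum_inv (hs : S_Swap) (T : SimpleGraph (Fin n) → Fin n → Fin n → Fin n → ℝ) :
    ∑ q ∈ QQ S ρ t, T q.1 q.2.1 q.2.2.1 q.2.2.2 =
    ∑ q ∈ QQ S ρ t, T (swp q.1 (ww S ρ t q.1) q.2.1 q.2.2.1 q.2.2.2) q.2.1 q.2.2.2 q.2.2.1 := by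
  have hmem : ∀ q ∈ QQ S ρ t, ((swp q.1 (ww S ρ t q.1) q.2.1 q.2.2.1 q.2.2.2, q.2.1, q.2.2.2,
      q.2.2.1) : SimpleGraph (Fin n) × Fin n × Fin n × Fin n) ∈ QQ S ρ t := by
    intro q hq
    unfold QQ at hq ⊢
    rw [mem_filter] at hq ⊢
    exact ⟨mem_univ _, (hs n S ρ t q.1 q.2.1 q.2.2.1 q.2.2.2 hq.2).2.2.1⟩
  have hinv : ∀ q ∈ QQ S ρ t, (swp (swp q.1 (ww S ρ t q.1) q.2.1 q.2.2.1 q.2.2.2)
      (ww S ρ t (swp q.1 (ww S ρ t q.1) q.2.1 q.2.2.1 q.2.2.2)) q.2.1 q.2.2.2 q.2.2.1) = q.1 := by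
    intro q hq
    unfold QQ at hq
    rw [mem_filter] at hq
    obtain ⟨-, h2, -, h4, -⟩ := hs n S ρ t q.1 q.2.1 q.2.2.1 q.2.2.2 hq.2
    rw [h2, h4]
  refine sum_bij' (fun q _ => (swp q.1 (ww S ρ t q.1) q.2.1 q.2.2.1 q.2.2.2, q.2.1, q.2.2.2,
    q.2.2.1)) (fun q _ => (swp q.1 (ww S ρ t q.1) q.2.1 q.2.2.1 q.2.2.2, q.2.1, q.2.2.2,
    q.2.2.1)) hmem hmem ?_ ?_ ?_
  · intro q hq
    simp only [hinv q hq]
  · intro q hq
    simp only [hinv q hq]
  · intro q hq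
    simp only [hinv q hq]

theorem sw1 (hs : S_Swap) : S_SW1 := by
  intro n S ρ t K g hK hg
  have hT : ∑ G, (if NP S ρ t G then ∑ w2 ∈ (NN S ρ t G).erase (ww S ρ t G),
      K G w2 * Dd S ρ t G (g G) w2 else 0) =
      ∑ q ∈ QQ S ρ t, (K q.1 q.2.1 / Dl S ρ t q.1 q.2.1 * (2 * (g q.1 q.2.2.1 - g q.1 q.2.2.2))) := by
    rw [← sum_QQ (fun G w2 x y => K G w2 / Dl S ρ t G w2 * (2 * (g G x - g G y)))]
    apply sum_congr rfl
    intro G _
    by_cases hNP : NP S ρ t G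
    · rw [if_pos hNP, if_pos hNP]
      apply sum_congr rfl
      intro w2 hw2
      simp only [← mul_sum]
      have := sum_xy hNP hw2 (g G)
      simp only [← mul_sum] at this
      rw [this]
      by_cases hD : Dl S ρ t G w2 = 0
      · rw [Dd_zero _ hD]
        simp
      · field_simp
    · rw [if_neg hNP, if_neg hNP]
  rw [hT]
  have h1 := sum_inv (S := S) (ρ := ρ) (t := t) hs
    (fun G w2 x y => K G w2 / Dl S ρ t G w2 * (2 * (g G x - g G y)))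
  have h2 : ∑ q ∈ QQ S ρ t, (fun G w2 x y => K G w2 / Dl S ρ t G w2 * (2 * (g G x - g G y)))
      (swp q.1 (ww S ρ t q.1) q.2.1 q.2.2.1 q.2.2.2) q.2.1 q.2.2.2 q.2.2.1 =
      - ∑ q ∈ QQ S ρ t, (K q.1 q.2.1 / Dl S ρ t q.1 q.2.1 *
        (2 * (g q.1 q.2.2.1 - g q.1 q.2.2.2))) := by
    rw [← sum_neg_distrib]
    apply sum_congr rfl
    intro q hq
    unfold QQ at hq
    rw [mem_filter] at hq
    have hOK := hq.2
    obtain ⟨k1, k2⟩ := Dd_swp hs hOK (fun _ => 0)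
    have k3 := hK _ _ _ _ hOK
    obtain ⟨k4, -⟩ := hs _ _ _ _ _ _ _ _ hOK
    have k5 : ∀ a, g (swp q.1 (ww S ρ t q.1) q.2.1 q.2.2.1 q.2.2.2) a = g q.1 a :=
      fun a => (hg a _ _ k4).symm
    simp only [k1, k3, k5]
    ring
  rw [h2] at h1
  linarith

theorem sw2 (hs : S_Swap) : S_SW2 := by
  intro n S ρ t K g hK hg
  have hT : ∑ G, (if NP S ρ t G then ∑ w2 ∈ (NN S ρ t G).erase (ww S ρ t G),
      K G w2 * Dl S ρ t G w2 * Dd S ρ t G (g G) w2 ^ 2 else 0) =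
      ∑ q ∈ QQ S ρ t, (K q.1 q.2.1 * Dd S ρ t q.1 (g q.1) q.2.1 *
        (2 * (g q.1 q.2.2.1 - g q.1 q.2.2.2))) := by
    rw [← sum_QQ (fun G w2 x y => K G w2 * Dd S ρ t G (g G) w2 * (2 * (g G x - g G y)))]
    apply sum_congr rfl
    intro G _
    by_cases hNP : NP S ρ t G
    · rw [if_pos hNP, if_pos hNP]
      apply sum_congr rfl
      intro w2 hw2
      simp only [← mul_sum]
      have := sum_xy hNP hw2 (g G)
      simp only [← mul_sum] at this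
      rw [this]
      ring
    · rw [if_neg hNP, if_neg hNP]
  have hR : ∑ G, (if NP S ρ t G then ∑ w2 ∈ (NN S ρ t G).erase (ww S ρ t G),
      K G w2 * ∑ x ∈ Aw S ρ t G w2, ∑ y ∈ Bw S ρ t G w2, (g G x - g G y) ^ 2 else 0) =
      ∑ q ∈ QQ S ρ t, (K q.1 q.2.1 * (g q.1 q.2.2.1 - g q.1 q.2.2.2) ^ 2) := by
    rw [← sum_QQ (fun G w2 x y => K G w2 * (g G x - g G y) ^ 2)]
    simp only [← mul_sum]
  rw [hT, hR]
  have h1 := sum_inv (S := S) (ρ := ρ) (t := t) hs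
    (fun G w2 x y => K G w2 * Dd S ρ t G (g G) w2 * (2 * (g G x - g G y)))
  have h2 : ∑ q ∈ QQ S ρ t, (fun G w2 x y => K G w2 * Dd S ρ t G (g G) w2 * (2 * (g G x - g G y)))
      (swp q.1 (ww S ρ t q.1) q.2.1 q.2.2.1 q.2.2.2) q.2.1 q.2.2.2 q.2.2.1 =
      - (∑ q ∈ QQ S ρ t, (K q.1 q.2.1 * Dd S ρ t q.1 (g q.1) q.2.1 *
        (2 * (g q.1 q.2.2.1 - g q.1 q.2.2.2)))) +
      4 * ∑ q ∈ QQ S ρ t, (K q.1 q.2.1 * (g q.1 q.2.2.1 - g q.1 q.2.2.2) ^ 2) := by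
    rw [← sum_neg_distrib, mul_sum, ← sum_add_distrib]
    apply sum_congr rfl
    intro q hq
    unfold QQ at hq
    rw [mem_filter] at hq
    have hOK := hq.2
    have k3 := hK _ _ _ _ hOK
    obtain ⟨k4, -⟩ := hs _ _ _ _ _ _ _ _ hOK
    have k5 : g (swp q.1 (ww S ρ t q.1) q.2.1 q.2.2.1 q.2.2.2) = g q.1 := by
      funext a
      exact (hg a _ _ k4).symm
    obtain ⟨k1, k2⟩ := Dd_swp hs hOK (g q.1)
    simp only [k3, k5, k2]
    ring
  rw [h2] at h1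
  linarith

end

end W358.PK
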