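import Pool.Agent.W841.PK.Api

/-! Switchings preserve the history. -/

set_option autoImplicit false

namespace W358.PK

open Finset W841.PK
open scoped Classical symmDiff

noncomputable section

variable {n : ℕ}

/-- the four pairs of a switching -/
def CC (w w2 x y : Fin n) : Set (Sym2 (Fin n)) := {s(w, x), s(x, w2), s(w2, y), s(y, w)}

theorem swp_adj (G : SimpleGraph (Fin n)) (w w2 x y a b : Fin n) :
    (swp G w w2 x y).Adj a b ↔
      (G.Adj a b ∧ ¬ (s(a, b) ∈ CC w w2 x y ∧ a ≠ b)) ∨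
      ((s(a, b) ∈ CC w w2 x y ∧ a ≠ b) ∧ ¬ G.Adj a b) := by
  unfold swp CC
  rw [symmDiff_def, SimpleGraph.sup_adj, SimpleGraph.sdiff_adj, SimpleGraph.sdiff_adj,
    SimpleGraph.fromEdgeSet_adj]

theorem CC_mem (w w2 x y a b : Fin n) : s(a, b) ∈ CC w w2 x y ↔
    (a = w ∧ b = x ∨ a = x ∧ b = w) ∨ (a = x ∧ b = w2 ∨ a = w2 ∧ b = x) ∨
    (a = w2 ∧ b = y ∨ a = y ∧ b = w2) ∨ (a = y ∧ b = w ∨ a = w ∧ b = y) := by
  unfold CC
  simp only [Set.mem_insert_iff, Set.mem_singleton_iff, Sym2.eq_iff]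

theorem swp_swp (G : SimpleGraph (Fin n)) (w w2 x y : Fin n) :
    swp (swp G w w2 x y) w w2 y x = G := by
  ext a b
  rw [swp_adj, swp_adj, CC_mem, CC_mem]
  by_cases h1 : G.Adj a b <;> by_cases h2 : a = b <;>
    by_cases h3 : a = w <;> by_cases h4 : a = w2 <;> by_cases h5 : a = x <;> by_cases h6 : a = y <;>
    by_cases h7 : b = w <;> by_cases h8 : b = w2 <;> by_cases h9 : b = x <;> by_cases h10 : b = y <;>
    simp_all

/-- exchanging two elements in a filter -/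
theorem card_filter_swap (R : Finset (Fin n)) (P P' : Fin n → Prop) (p q : Fin n) (hp : p ∈ R)
    (hq : q ∈ R) (hpq : p ≠ q) (h1 : P p) (h2 : ¬ P q) (h3 : ¬ P' p) (h4 : P' q)
    (h : ∀ b, b ≠ p → b ≠ q → (P b ↔ P' b)) : (R.filter P).card = (R.filter P').card := by
  have he : R.filter P' = insert q ((R.filter P).erase p) := by
    ext b
    rw [mem_insert, mem_erase, mem_filter, mem_filter]
    by_cases hbp : b = p
    · subst hbp
      simp [h3, hpq]
    · by_cases hbq : b = q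
      · subst hbq
        simp [h4, hq]
      · simp [hbp, hbq, h b hbp hbq]
  rw [he, card_insert_of_notMem, card_erase_of_mem]
  · have : 0 < (R.filter P).card := card_pos.2 ⟨p, mem_filter.2 ⟨hp, h1⟩⟩
    omega
  · exact mem_filter.2 ⟨hp, h1⟩
  · rw [mem_erase, mem_filter]
    exact fun hh => h2 hh.2.2

theorem dg_swp (G : SimpleGraph (Fin n)) (S R : Finset (Fin n)) (w w2 x y : Fin n)
    (hw : w ∉ S) (hw2 : w2 ∉ S) (hwR : w ∈ R) (hw2R : w2 ∈ R) (hxR : x ∈ R) (hyR : y ∈ R)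
    (hww : w2 ≠ w) (hxw : x ≠ w) (hxw2 : x ≠ w2) (hyw : y ≠ w) (hyw2 : y ≠ w2)
    (a1 : G.Adj x w) (a2 : ¬ G.Adj x w2) (a3 : G.Adj y w2) (a4 : ¬ G.Adj y w) :
    dg (plant G S) R = dg (plant (swp G w w2 x y) S) R := by
  have hxy : x ≠ y := by
    intro h
    rw [h] at a1
    exact a4 a1
  -- adjacency in the two graphs
  have hH : ∀ a b, (plant G S).Adj a b ↔ a ≠ b ∧ (G.Adj a b ∨ (a ∈ S ∧ b ∈ S)) := fun a b => Iff.rfl
  have hH' : ∀ a b, (plant (swp G w w2 x y) S).Adj a b ↔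
      a ≠ b ∧ ((swp G w w2 x y).Adj a b ∨ (a ∈ S ∧ b ∈ S)) := fun a b => Iff.rfl
  have hout : ∀ a b, s(a, b) ∉ CC w w2 x y →
      ((plant G S).Adj a b ↔ (plant (swp G w w2 x y) S).Adj a b) := by
    intro a b hab
    rw [hH, hH', swp_adj]
    simp [hab]
  have hin : ∀ a b, a ≠ b → (a = w ∨ a = w2 ∨ b = w ∨ b = w2) → s(a, b) ∈ CC w w2 x y →
      ((plant G S).Adj a b ↔ G.Adj a b) ∧
      ((plant (swp G w w2 x y) S).Adj a b ↔ ¬ G.Adj a b) := by
    intro a b hab hc hC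
    have hs : ¬ (a ∈ S ∧ b ∈ S) := by
      rintro ⟨h1, h2⟩
      rcases hc with rfl | rfl | rfl | rfl
      · exact hw h1
      · exact hw2 h1
      · exact hw h2
      · exact hw2 h2
    rw [hH, hH', swp_adj]
    simp only [hs, or_false, hab, ne_eq, not_false_eq_true, true_and, hC, and_true, not_true_eq_false,
      and_false, false_or]
  funext a
  unfold dg
  by_cases haR : a ∈ R
  swap
  · rw [if_neg haR, if_neg haR]
  rw [if_pos haR, if_pos haR]
  by_cases haw : a = w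
  · subst haw
    have m1 : s(a, x) ∈ CC a w2 x y := by rw [CC_mem]; simp
    have m2 : s(a, y) ∈ CC a w2 x y := by rw [CC_mem]; simp
    have k1 := hin a x hxw.symm (Or.inl rfl) m1
    have k2 := hin a y hyw.symm (Or.inl rfl) m2
    refine card_filter_swap R _ _ x y hxR hyR hxy (k1.1.2 a1.symm) (fun h => a4 (k2.1.1 h).symm)
      (fun h => k1.2.1 h a1.symm) (k2.2.2 fun h => a4 h.symm) ?_
    intro b hb1 hb2
    apply hout
    rw [CC_mem]
    simp [hb1, hb2, hww.symm, hxw.symm, hyw.symm]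
  by_cases haw2 : a = w2
  · subst haw2
    have m1 : s(a, x) ∈ CC w a x y := by rw [CC_mem]; simp
    have m2 : s(a, y) ∈ CC w a x y := by rw [CC_mem]; simp
    have k1 := hin a x hxw2.symm (Or.inr (Or.inl rfl)) m1
    have k2 := hin a y hyw2.symm (Or.inr (Or.inl rfl)) m2
    refine card_filter_swap R _ _ y x hyR hxR hxy.symm (k2.1.2 a3.symm) (fun h => a2 (k1.1.1 h).symm)
      (fun h => k2.2.1 h a3.symm) (k1.2.2 fun h => a2 h.symm) ?_
    intro b hb1 hb2
    apply hout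
    rw [CC_mem]
    simp [hb1, hb2, hww, hxw2.symm, hyw2.symm]
  by_cases hax : a = x
  · subst hax
    have m1 : s(a, w) ∈ CC w w2 a y := by rw [CC_mem]; simp
    have m2 : s(a, w2) ∈ CC w w2 a y := by rw [CC_mem]; simp
    have k1 := hin a w hxw (Or.inr (Or.inr (Or.inl rfl))) m1
    have k2 := hin a w2 hxw2 (Or.inr (Or.inr (Or.inr rfl))) m2
    refine card_filter_swap R _ _ w w2 hwR hw2R hww.symm (k1.1.2 a1) (fun h => a2 (k2.1.1 h))
      (fun h => k1.2.1 h a1) (k2.2.2 a2) ?_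
    intro b hb1 hb2
    apply hout
    rw [CC_mem]
    simp [hb1, hb2, haw, haw2, hxy]
  by_cases hay : a = y
  · subst hay
    have m1 : s(a, w) ∈ CC w w2 x a := by rw [CC_mem]; simp
    have m2 : s(a, w2) ∈ CC w w2 x a := by rw [CC_mem]; simp
    have k1 := hin a w hyw (Or.inr (Or.inr (Or.inl rfl))) m1
    have k2 := hin a w2 hyw2 (Or.inr (Or.inr (Or.inr rfl))) m2
    refine card_filter_swap R _ _ w2 w hw2R hwR hww (k2.1.2 a3) (fun h => a4 (k1.1.1 h))
      (fun h => k2.2.1 h a3) (k1.2.2 a4) ?_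
    intro b hb1 hb2
    apply hout
    rw [CC_mem]
    simp [hb1, hb2, haw, haw2, hax]
  congr 1
  apply filter_congr
  intro b _
  apply hout
  rw [CC_mem]
  simp [haw, haw2, hax, hay]

theorem swap : S_Swap := by
  intro n S ρ t G w2 x y hOK
  obtain ⟨⟨hw, hwR⟩, hw2N, hww, hxR, hyR, hxw, hxw2, hyw, hyw2, a1, a2, a3, a4⟩ := hOK
  have hw2R : w2 ∈ RR S ρ t G := NN_sub S ρ t G hw2N
  have hw2 : w2 ∉ S := (mem_sdiff.1 hw2N).2
  set w := ww S ρ t G with hwdef
  have hxy : x ≠ y := by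
    intro h
    rw [h] at a1
    exact a4 a1
  have hdg : ∀ i ≤ t, dg (plant G S) (RR S ρ i G) =
      dg (plant (swp G w w2 x y) S) (RR S ρ i G) := by
    intro i hi
    have hsub := RR_anti S ρ G hi
    exact dg_swp G S _ w w2 x y hw hw2 (hsub hwR) (hsub hw2R) (hsub hxR) (hsub hyR) hww hxw hxw2
      hyw hyw2 a1 a2 a3 a4
  have hRR : ∀ i ≤ t, RR S ρ i G = RR S ρ i (swp G w w2 x y) := by
    intro i
    induction i with
    | zero => intro _; rfl
    | succ i ih =>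
      intro hi
      have h1 := ih (by omega)
      have h2 := hdg i (by omega)
      rw [RR_succ, RR_succ]
      unfold ww
      rw [← h1, ← h2]
  have hSH : SameHist S ρ t G (swp G w w2 x y) := by
    intro i hi
    refine ⟨hRR i hi, ?_⟩
    rw [← hRR i hi]
    exact hdg i hi
  have hwweq : ww S ρ t (swp G w w2 x y) = w := by
    obtain ⟨h1, h2⟩ := hSH t le_rfl
    have h3 : ww S ρ t (swp G w w2 x y) = ρ (RR S ρ t (swp G w w2 x y))
      (dg (plant (swp G w w2 x y) S) (RR S ρ t (swp G w w2 x y))) := rfl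
    rw [h3, ← h2, ← h1]
    rfl
  have hNN : NN S ρ t (swp G w w2 x y) = NN S ρ t G := by
    unfold NN
    rw [hRR t le_rfl]
  refine ⟨hSH, hwweq, ?_, swp_swp G w w2 x y, ?_⟩
  · unfold SwOK NP
    rw [hwweq, hNN, ← hRR t le_rfl]
    refine ⟨⟨hw, hwR⟩, hw2N, hww, hyR, hxR, hyw, hyw2, hxw, hxw2, ?_, ?_, ?_, ?_⟩
    · rw [swp_adj]
      exact Or.inr ⟨⟨by rw [CC_mem]; simp, hyw⟩, a4⟩
    · rw [swp_adj]
      rintro (⟨-, h⟩ | ⟨-, h⟩)
      · exact h ⟨by rw [CC_mem]; simp, hyw2⟩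
      · exact h a3
    · rw [swp_adj]
      exact Or.inr ⟨⟨by rw [CC_mem]; simp, hxw2⟩, a2⟩
    · rw [swp_adj]
      rintro (⟨-, h⟩ | ⟨-, h⟩)
      · exact h ⟨by rw [CC_mem]; simp, hxw⟩
      · exact h a1
  · intro a b
    by_cases hC : s(a, b) ∈ CC w w2 x y
    · rw [if_pos (show s(a, b) ∈ ({s(w, x), s(x, w2), s(w2, y), s(y, w)} : Set (Sym2 (Fin n)))
        from hC)]
      unfold ee
      rw [swp_adj]
      by_cases hab : a = b
      · simp [hab]
      · by_cases hA : G.Adj a b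
        · simp [hab, hC, hA]
        · simp [hab, hC, hA]
    · rw [if_neg (show s(a, b) ∉ ({s(w, x), s(x, w2), s(w2, y), s(y, w)} : Set (Sym2 (Fin n)))
        from hC)]
      unfold ee
      rw [swp_adj]
      simp [hC]

end

end W358.PK
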